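import Pool.Agent.Y958.E.Stm
import Pool.Agent.Y578.U.Alg

set_option autoImplicit false

/-!
# Job ALG2 (library Y958.E): from the relations of the cubes to a relation with two terms
(the proof of `Pool.Agent.Y578.U.alg` of helper578 without its first step)
-/

open Finset

namespace Pool.Agent.Y960.E

open Pool.Agent.Y958.U Pool.Agent.Y958.E Pool.Agent.Y578.U

theorem alg2 : S_ALG2 := by
  intro d L
  obtain ⟨J, hJ⟩ : ∃ J, J = L.factorial := ⟨_, rfl⟩
  have hJ0 : 1 ≤ J := by rw [hJ]; exact Nat.factorial_pos L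
  refine ⟨2 ^ (2 ^ d) * (J ^ d * (2 ^ d * 2 ^ d)), ?_⟩
  intro A hA x hx
  have hX : ∀ i : Fin d, 1 ≤ (x 0 - x i.succ).natAbs := by
    intro i
    rw [Nat.one_le_iff_ne_zero, Int.natAbs_ne_zero, sub_ne_zero]
    intro h
    have := hx h
    exact absurd this.symm (Fin.succ_ne_zero i)
  have hXf : 1 ≤ Xf x := Nat.one_le_iff_ne_zero.2 (Finset.prod_ne_zero_iff.2 fun i _ => by
    have := hX i; omega)
  refine ⟨A * Xf x * J * 2 ^ d, ?_, ?_, Gf x, ?_, ?_⟩
  · have : 0 < A * Xf x * J * 2 ^ d := by positivity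
    exact this
  · exact ⟨Xf x * J * 2 ^ d, by ring⟩
  · intro i
    exact Nat.one_le_iff_ne_zero.2 (Finset.prod_ne_zero_iff.2 fun l _ => by
      have := hX l; omega)
  intro r j hj n H hadd hT hmono hrel
  -- step 1
  have s1 : ∀ ω : Finset (Fin d), H (TT (x 0) * ∏ i, (1 + TT ((A : ℤ) *
      ((r i + if i ∈ ω then (j i : ℤ) * Gf x i else 0) * (x 0 - x i.succ))))) (2 ^ d) := by
    intro ω
    have h1 := hrel ω
    have h2 := hT _ _ (-((A : ℤ) * (n ω * x 0))) (Dvd.dvd.neg_right ⟨_, rfl⟩) h1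
    rw [← mul_assoc, ← LaurentPolynomial.T_add] at h2
    have e : -((A : ℤ) * (n ω * x 0)) + (1 + A * n ω) * x 0 = x 0 := by ring
    rw [e] at h2
    exact h2
  -- step 2
  have s2 : H (TT (x 0) * ∏ i, (TT ((A : ℤ) * (r i * (x 0 - x i.succ))) *
      (1 + TT ((A : ℤ) * ((j i : ℤ) * Gf x i * (x 0 - x i.succ)))))) (2 ^ d * 2 ^ d) := by
    have h1 := hsum hadd (univ : Finset (Finset (Fin d))) ⟨∅, Finset.mem_univ _⟩ _ (2 ^ d)
      fun ω _ => s1 ω
    rw [Finset.card_univ, Fintype.card_finset, Fintype.card_fin, ← Finset.mul_sum] at h1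
    have h2 : ∑ ω : Finset (Fin d), ∏ i, (1 + TT ((A : ℤ) *
        ((r i + if i ∈ ω then (j i : ℤ) * Gf x i else 0) * (x 0 - x i.succ)))) =
        ∏ i, (TT ((A : ℤ) * (r i * (x 0 - x i.succ))) *
          (1 + TT ((A : ℤ) * ((j i : ℤ) * Gf x i * (x 0 - x i.succ))))) := by
      have h3 : ∀ i : Fin d, TT ((A : ℤ) * (r i * (x 0 - x i.succ))) *
          (1 + TT ((A : ℤ) * ((j i : ℤ) * Gf x i * (x 0 - x i.succ)))) =
          (1 + TT ((A : ℤ) * ((r i + (j i : ℤ) * Gf x i) * (x 0 - x i.succ)))) +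
            (1 + TT ((A : ℤ) * (r i * (x 0 - x i.succ)))) := by
        intro i
        rw [mul_add, mul_one, ← LaurentPolynomial.T_add]
        have e : (A : ℤ) * (r i * (x 0 - x i.succ)) + A * ((j i : ℤ) * Gf x i * (x 0 - x i.succ)) =
            A * ((r i + (j i : ℤ) * Gf x i) * (x 0 - x i.succ)) := by ring
        rw [e]
        have h4 := two_zero (1 : LP)
        linear_combination -h4
      rw [Finset.prod_congr rfl fun i _ => h3 i, Finset.prod_add, Finset.powerset_univ]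
      refine Finset.sum_congr rfl fun ω _ => ?_
      rw [← Finset.prod_mul_prod_compl ω]
      congr 1
      · exact Finset.prod_congr rfl fun i hi => by rw [if_pos hi]
      · rw [Finset.compl_eq_univ_sdiff]
        refine Finset.prod_congr rfl fun i hi => ?_
        rw [if_neg (Finset.mem_sdiff.1 hi).2, add_zero]
    rw [h2] at h1
    exact h1
  -- translations to normal form
  have s3 : H (TT (x 0) * ∏ i : Fin d, (1 + TT ((A : ℤ) * Xf x * j i))) (2 ^ d * 2 ^ d) := by
    have h1 : Mu H (∏ i : Fin d, TT (-((A : ℤ) * (r i * (x 0 - x i.succ))) +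
        if 0 ≤ x 0 - x i.succ then 0 else (A : ℤ) * Xf x * j i)) (∏ _i : Fin d, 1) := by
      refine mu_prod _ _ _ fun i _ => mu_T hT ?_
      split_ifs
      · rw [add_zero]; exact Dvd.dvd.neg_right ⟨_, rfl⟩
      · exact Dvd.dvd.add (Dvd.dvd.neg_right ⟨_, rfl⟩) ⟨Xf x * j i, by ring⟩
    have h2 := h1 _ _ s2
    rw [Finset.prod_const_one, one_mul, mul_left_comm, ← Finset.prod_mul_distrib] at h2
    refine (congrArg (fun g => H (TT (x 0) * g) (2 ^ d * 2 ^ d)) ?_).mp h2
    refine Finset.prod_congr rfl fun i _ => ?_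
    have hG : ((x 0 - x i.succ).natAbs : ℤ) * Gf x i = Xf x := by exact_mod_cast Gf_mul x i
    split_ifs with h0
    · have hab : ((x 0 - x i.succ).natAbs : ℤ) = x 0 - x i.succ := Int.natAbs_of_nonneg h0
      rw [hab] at hG
      rw [← mul_assoc, ← LaurentPolynomial.T_add]
      have e1 : -((A : ℤ) * (r i * (x 0 - x i.succ))) + 0 + A * (r i * (x 0 - x i.succ)) = 0 := by
        ring
      have e2 : (A : ℤ) * ((j i : ℤ) * Gf x i * (x 0 - x i.succ)) = A * Xf x * j i := by
        rw [← hG]; ring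
      rw [e1, LaurentPolynomial.T_zero, one_mul, e2]
    · have hab : ((x 0 - x i.succ).natAbs : ℤ) = -(x 0 - x i.succ) := by omega
      rw [hab] at hG
      rw [← mul_assoc, ← LaurentPolynomial.T_add, mul_add, mul_one, ← LaurentPolynomial.T_add,
        add_comm]
      have e1 : -((A : ℤ) * (r i * (x 0 - x i.succ))) + A * Xf x * j i +
          A * (r i * (x 0 - x i.succ)) = A * Xf x * j i := by ring
      have e2 : (A : ℤ) * Xf x * j i + A * ((j i : ℤ) * Gf x i * (x 0 - x i.succ)) = 0 := by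
        rw [← hG]; ring
      rw [e1, e2, LaurentPolynomial.T_zero]
  -- step 3
  have s4 : H (TT (x 0) * (1 + TT ((A : ℤ) * Xf x * J)) ^ d) (J ^ d * (2 ^ d * 2 ^ d)) := by
    have h1 : Mu H (∏ i : Fin d, ∑ l ∈ range (J / j i), TT ((A : ℤ) * Xf x * j i) ^ l)
        (∏ i : Fin d, (J / j i)) := by
      refine mu_prod _ _ _ fun i _ => ?_
      have hji := hj i
      have hpos : 0 < J / j i := Nat.div_pos (by
        rw [hJ]; exact le_trans hji.2 (Nat.self_le_factorial L)) hji.1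
      have h2 := mu_sum hadd (range (J / j i)) ⟨0, Finset.mem_range.2 hpos⟩
        (fun l => TT ((A : ℤ) * Xf x * j i) ^ l) (fun l _ => by
          have h3 : TT ((A : ℤ) * Xf x * j i) ^ l = TT (l * ((A : ℤ) * Xf x * j i)) :=
            LaurentPolynomial.T_pow _ _
          rw [h3]
          exact mu_T hT ⟨l * (Xf x * j i), by ring⟩)
      rwa [Finset.card_range] at h2
    have h2 := h1 _ _ s3
    have h3 : (∏ i : Fin d, (J / j i)) ≤ J ^ d := by
      calc (∏ i : Fin d, (J / j i)) ≤ ∏ _i : Fin d, J :=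
            Finset.prod_le_prod' fun i _ => Nat.div_le_self _ _
        _ = J ^ d := by simp
    have h4 := hmono _ _ _ (Nat.mul_le_mul_right (2 ^ d * 2 ^ d) h3) h2
    rw [mul_left_comm, ← Finset.prod_mul_distrib] at h4
    refine (congrArg (fun g => H (TT (x 0) * g) (J ^ d * (2 ^ d * 2 ^ d))) ?_).mp h4
    have h5 : ∀ i : Fin d, (∑ l ∈ range (J / j i), TT ((A : ℤ) * Xf x * j i) ^ l) *
        (1 + TT ((A : ℤ) * Xf x * j i)) = 1 + TT ((A : ℤ) * Xf x * J) := by
      intro i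
      have hji := hj i
      rw [mul_comm, geo]
      congr 1
      have h6 : TT ((A : ℤ) * Xf x * j i) ^ (J / j i) =
          TT (((J / j i : ℕ) : ℤ) * ((A : ℤ) * Xf x * j i)) := LaurentPolynomial.T_pow _ _
      rw [h6]
      congr 1
      have h7 : j i ∣ J := by
        rw [hJ]; exact Nat.dvd_factorial hji.1 hji.2
      have h8 : ((J / j i : ℕ) : ℤ) * j i = J := by exact_mod_cast Nat.div_mul_cancel h7
      rw [← h8]; ring
    rw [Finset.prod_congr rfl fun i _ => h5 i]
    simp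
  -- step 4
  refine ⟨x 0, ?_⟩
  have h1 : Mu H (1 + TT ((A : ℤ) * Xf x * J)) 2 := by
    intro g a hg
    rw [add_mul, one_mul, two_mul]
    exact hadd _ _ _ _ hg (hT _ _ _ ⟨Xf x * J, by ring⟩ hg)
  have h2 := mu_pow h1 (2 ^ d - d) _ _ s4
  have hd : 2 ^ d - d + d = 2 ^ d := Nat.sub_add_cancel (Nat.lt_two_pow_self).le
  rw [mul_left_comm, ← pow_add, hd, frob] at h2
  have h3 : TT ((A : ℤ) * Xf x * J) ^ 2 ^ d = TT ((A * Xf x * J * 2 ^ d : ℕ) : ℤ) := by
    have h4 : TT ((A : ℤ) * Xf x * J) ^ 2 ^ d = TT (((2 ^ d : ℕ) : ℤ) * ((A : ℤ) * Xf x * J)) :=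
      LaurentPolynomial.T_pow _ _
    rw [h4]
    congr 1
    push_cast; ring
  rw [h3] at h2
  refine hmono _ _ _ ?_ h2
  exact Nat.mul_le_mul_right _ (Nat.pow_le_pow_right (by norm_num) (Nat.sub_le _ _))

end Pool.Agent.Y960.E
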